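import Pool.Agent.H361R3.PGL.Final

/-!
The transitivity degree of `PGL(2,F)` for every countably infinite field `F`, and the
classification of the fields for which `PGL(2,F)` is highly transitive.
-/

universe u

open Matrix
open scoped MatrixGroups

open H361P in
/-- Let `F` be a countably infinite field. If `F` is algebraic over a finite field then
`td(PGL(2,F)) = 3` and `PGL(2,F)` is not highly transitive. Otherwise `PGL(2,F)` is highly
transitive and `td(PGL(2,F)) = ∞`. -/
theorem Pool.Agent.Results.MP_57df8f_al.TransitivityDegree.result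
    (F : Type u) [Field F] [Countable F] [Infinite F] :
    (AlgebraicOverFiniteField F →
      td (PGL(2, F)) = 3 ∧ ¬ IsHighlyTransitiveGroup (PGL(2, F))) ∧
    (¬ AlgebraicOverFiniteField F →
      IsHighlyTransitiveGroup (PGL(2, F)) ∧ td (PGL(2, F)) = ⊤) :=
  ⟨fun h => ⟨td_eq_three h, not_ht h⟩, fun h => ⟨pgl_ht h, td_eq_top _ (pgl_ht h)⟩⟩
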